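import Pool.Agent.N184.KB.Main

/-!
# Kato's conjecture in large characteristic

For every projective scheme over a base `B` of finite type over `ℤ` (for example the universal family
over a Hilbert scheme) Kato's conjecture holds for all SNCL schemes whose underlying scheme is a
geometric fibre of residue characteristic `p ≥ C`.
-/

set_option autoImplicit false

namespace Pool.Agent.Results.MP_f8720a_ag.LargeCharacteristic

open Pool.Agent.N184 Pool.Agent.N184.KB AlgebraicGeometry

/-- Let `B` be a noetherian scheme (of finite type over `ℤ`) and `𝒴` a projective scheme over `B`. There is a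
constant `C` with the following property. Let `p ≥ C` be a prime number, `ℓ ≠ p`, `y` a point of `B` of
residue characteristic `p` and `X` (the log cohomology of) an SNCL scheme over a log point whose
underlying scheme is the geometric fibre of `𝒴` at `y`. Then the weight filtration on `H^q`, centred at
`q`, is the monodromy filtration of `N`, for every `q`. -/
theorem result (B : Scheme.{0}) [IsNoetherian B] {Ω : ℕ → Type} [∀ ℓ, Field (Ω ℓ)]
    (Y : ProjectiveFamily B Ω) :
    ∃ C : ℕ, ∀ (p : ℕ) (y : B), p.Prime → C ≤ p → ¬ IsInvertibleAt p y → Y.IsSNCL y →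
      ∀ ℓ : ℕ, ℓ.Prime → ℓ ≠ p → ∀ X : LogModel (Ω ℓ),
        AF.Corresponds X.toStrataData (Y.strata ℓ y) → X.WeightIsMonodromy := by
  obtain ⟨C, hC⟩ := Y.exists_bound
  refine ⟨C, fun p y hp hCp hy hs ℓ hℓ hℓp X hX => ?_⟩
  exact weightIsMonodromy_of X (hX.hasMonodromyIso (hC p y hp hCp hy hs ℓ hℓ hℓp))

end Pool.Agent.Results.MP_f8720a_ag.LargeCharacteristic
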