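import Pool.Agent.N184.KL.Final

/-!
# Kato's conjecture: the outer part of the weight filtration

For a projective SNCL scheme `Y` of relative dimension `d` over a log point, the weight filtration `P`
on the log cohomology `H^k` agrees with the monodromy filtration in the steps `P_(k+s)` with
`s ≥ min (k, 2 d - k) - 1` or `s ≤ - min (k, 2 d - k)`; in the middle degree `k = d` also for
`s ≥ d - 2` and `s ≤ - (d - 1)`.
-/

namespace Pool.Agent.Results.MP_f8720a_ag.OuterMonodromy

universe u v

open Module Pool.Agent.Y143 Pool.Agent.N184.KL

variable {Ω : Type u} [Field Ω] [CharZero Ω] {Γ : Type} {d q : ℕ}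

/-- Let `Y` be a projective SNCL scheme of relative dimension `d` over a log point with finite residue
field of `q` elements, given by the cohomology of its strata and the `ℓ`-adic weight spectral
sequence; no hard Lefschetz theorem for the log cohomology is assumed. Let `M` be the monodromy
filtration of the monodromy operator `N` on the log cohomology `H^k` and `W` the weight filtration,
and suppose that `f + 1` is in the range for `k`:

* `f + 1 ≥ min (k, 2 d - k)`,
* or `k = d` and `f + 1 ≥ d - 1`,
* or `k = d`, `f + 1 ≥ d - 2`, and the classes in `H^2` of the `(d - 2)`-fold intersections of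
  components are algebraic.

Then `M_s = W_(k + s)` for all `s ≥ f` and all `s ≤ -f - 1`. For `f = 0` this is the assertion that
`W` is the monodromy filtration. -/
theorem result (Y : SemistableModel.{u, v} Ω Γ d q) (A : DivisorClasses Y.toSpecialFibre)
    (k f : ℕ) (h : InRange A k (f + 1)) (M : ℤ → Submodule Ω (Y.V k))
    (hM : IsMonodromyFiltration (Y.N k) M) (s : ℤ) (hs : (f : ℤ) ≤ s ∨ s ≤ -(f : ℤ) - 1) :
    M s = Y.W k (k + s) :=
  weight_eq_monodromy Y A k f h M hM s hs

end Pool.Agent.Results.MP_f8720a_ag.OuterMonodromy
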