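import Pool.Agent.N992.WM.Final

/-!
# MP_f8720a_ag: Kato's log `ℓ`-adic monodromy-weight conjecture

Let `k` be a finite field, `s` its standard log point, `G` the log fundamental group of `s`, and let `X`
run through the projective, vertical, log smooth fs log schemes over `s`. The following are equivalent.

1. The weight filtration of `H^m(X)` is the monodromy filtration, for all `X` and `m`.
2. `H^m(X)(r)^G = 0` for all `X` and all `m < 2 r`.
3. `H^(2 r - 1)(X)(r)^G = 0` for all `X` and all `r > 0`.

So Kato's conjecture, a statement about all Jordan blocks of the monodromy operator, is equivalent to the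
statement that there are no invariant classes in the degree just below that of algebraic cycles. That 1
implies 2 is known (if the filtrations agree, the kernel of `N` on `H^m(X)` has weights at most `m`). The
point is that 3 implies 1.

Sketch of 3 ⇒ 1. By a ramified base change inertia may be assumed unipotent. By Poincaré duality it is
enough to show that `x = 0` if `x ∈ H^m(X)` has weight `m + t + 1` (it lies in the generalised eigenspace
of the Frobenius for an `α` with `|α| ^ 2 = q ^ (m + t + 1)`) and `N ^ (t + 1) x = 0`; the Frobenius is not
assumed to be semisimple, but it suffices to treat eigenvectors. The vectors `x, N x, ..., N ^ t x` define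
an `N`-equivariant map `Sym ^ t H^1(E) → H^m(X)`, for the log Tate curve `E`, hence a class in
`H^m(X) ⊗ Sym ^ t H^1(E)`, a direct summand of `H^(m + t)(X × E ^ t)`. It is killed by `N` and has weight
`(m + t) + 1`. So one may assume that `t = 0`. The eigenvalue of `x` occurs in the cohomology of an
intersection `Z` of components of the special fibre, up to a twist; the product of `x` with the dual
eigenclass of `Z` is an invariant class of `H^n(X × Z)(r)` with `n = 2 r - 1`, which is zero by 3.

The axioms for log `ℓ`-adic cohomology, the operators `F`, `N`, `s`, the reduction to unipotent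
monodromy and the linear algebra of `Hom (Sym ^ t H^1(E), H^m(X))` are those of helper522
(`Pool.Agent.N522.LogT`, see `MP_6a91c2_ag.WeightMonodromy`).
-/

namespace Pool.Agent.Results.MP_f8720a_ag.VanishingBelowTate

open Pool.Agent.N522.LogT Pool.Agent.N992.WM

theorem result (T : LogTheory) (hT : IsLogTheory T) (h1 : PowersOfTateCurve T)
    (h2 : ConstVanishing T) :
    ((∀ X r, 0 < r → NoInvariants T X (2 * r - 1) r) ↔ ∀ X m, WeightMonodromy T X m) ∧
      ((∀ X m r, m < 2 * r → NoInvariants T X m r) ↔ ∀ X m, WeightMonodromy T X m) :=
  main hT h1 h2

end Pool.Agent.Results.MP_f8720a_ag.VanishingBelowTate
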